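import Pool.Agent.L0h32.LT.Stm

/-!
# Fingerprints: the one-pass randomized programs

The main result is `t_ONE : S_ONE`.
-/

set_option autoImplicit false

namespace Pool.Agent.L0h90.LT

open Finset Polynomial Pool.Agent.L0h32.LT

/-- the polynomial of a variable -/
noncomputable def Lp {n K : ℕ} (M : Fin n → (Fin 6 × Fin K → ZMod 2)) (i : Fin n) (c : Fin 6) :
    (ZMod 2)[X] := ∑ a : Fin K, C (M i (c, a)) * X ^ (a : ℕ)

/-- the program -/
noncomputable def prg {n K : ℕ} (M : Fin n → (Fin 6 × Fin K → ZMod 2)) (w : (ZMod 2)[X])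
    (F : Type) [Field F] [Algebra (ZMod 2) F] (r : F) : OnePass n (Fin 6 → F) where
  start := 0
  next := fun i v b c => v c + (if b = true then aeval r (Lp M i c) else 0)
  acc := fun v => v 0 * v 3 + v 1 * v 4 + v 2 * v 5 ≠ aeval r w

section

variable {n K : ℕ} (M : Fin n → (Fin 6 × Fin K → ZMod 2)) (w : (ZMod 2)[X])
  (F : Type) [Field F] [Algebra (ZMod 2) F] (r : F)

lemma fold_eq (x : Inp n) (l : List (Fin n)) (v : Fin 6 → F) (c : Fin 6) :
    l.foldl (fun v i => (prg M w F r).next i v (x i)) v c =
      v c + (l.map (fun i => if x i = true then aeval r (Lp M i c) else 0)).sum := by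
  induction l generalizing v with
  | nil => simp
  | cons i l ih =>
    rw [List.foldl_cons, ih, List.map_cons, List.sum_cons]
    show v c + (if x i = true then aeval r (Lp M i c) else 0) + _ = _
    rw [add_assoc]

lemma fold_frm (x : Inp n) (c : Fin 6) :
    (List.finRange n).foldl (fun v i => (prg M w F r).next i v (x i)) (prg M w F r).start c =
      aeval r (frm M x c) := by
  rw [fold_eq]
  show (0 : F) + _ = _
  rw [zero_add]
  unfold frm
  rw [map_sum, ← List.ofFn_eq_map, List.sum_ofFn]
  refine Finset.sum_congr rfl fun i _ => ?_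
  show (if x i = true then aeval r (Lp M i c) else 0) = _
  unfold Lp
  split_ifs <;> simp

lemma acc_iff (x : Inp n) :
    (prg M w F r).Accepts x ↔ aeval r (quad M x) ≠ aeval r w := by
  unfold OnePass.Accepts
  show ((List.finRange n).foldl (fun v i => (prg M w F r).next i v (x i)) (prg M w F r).start 0) *
    ((List.finRange n).foldl (fun v i => (prg M w F r).next i v (x i)) (prg M w F r).start 3) +
    ((List.finRange n).foldl (fun v i => (prg M w F r).next i v (x i)) (prg M w F r).start 1) *
    ((List.finRange n).foldl (fun v i => (prg M w F r).next i v (x i)) (prg M w F r).start 4) +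
    ((List.finRange n).foldl (fun v i => (prg M w F r).next i v (x i)) (prg M w F r).start 2) *
    ((List.finRange n).foldl (fun v i => (prg M w F r).next i v (x i)) (prg M w F r).start 5) ≠ _ ↔ _
  simp only [fold_frm]
  unfold quad
  rw [map_add, map_add, map_mul, map_mul, map_mul]

lemma deg_frm (x : Inp n) (c : Fin 6) : (frm M x c).natDegree ≤ K := by
  unfold frm
  refine natDegree_sum_le_of_forall_le _ _ fun i _ => ?_
  split_ifs
  · refine natDegree_sum_le_of_forall_le _ _ fun a _ => ?_
    refine (natDegree_C_mul_X_pow_le _ _).trans a.2.le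
  · simp

lemma deg_quad (x : Inp n) : (quad M x).natDegree ≤ 2 * K := by
  have h : ∀ a b : Fin 6, (frm M x a * frm M x b).natDegree ≤ 2 * K := by
    intro a b
    refine natDegree_mul_le.trans ?_
    have h1 := deg_frm M x a
    have h2 := deg_frm M x b
    omega
  unfold quad
  exact natDegree_add_le_of_degree_le (natDegree_add_le_of_degree_le (h _ _) (h _ _)) (h _ _)

open Classical in
lemma card_zero [Fintype F] {q : (ZMod 2)[X]} (hq : q ≠ 0) {d : ℕ} (hd : q.natDegree ≤ d) :
    (univ.filter fun r : F => aeval r q = 0).card ≤ d := by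
  set Q : F[X] := q.map (algebraMap (ZMod 2) F) with hQ
  have hQ0 : Q ≠ 0 := by
    rw [hQ]
    exact (Polynomial.map_ne_zero_iff (algebraMap (ZMod 2) F).injective).2 hq
  have h1 : (univ.filter fun r : F => aeval r q = 0) ⊆ Q.roots.toFinset := by
    intro r hr
    rw [mem_filter] at hr
    rw [Multiset.mem_toFinset, mem_roots hQ0, IsRoot.def, hQ, eval_map_algebraMap]
    exact hr.2
  refine (card_le_card h1).trans ((Multiset.toFinset_card_le _).trans ?_)
  refine (card_roots' Q).trans ?_
  rw [hQ]
  exact natDegree_map_le.trans hd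

end

/-- **Fingerprints** -/
theorem t_ONE : S_ONE := by
  classical
  intro n K ρ M w hρ hK hw
  obtain ⟨x0, hx0⟩ := hw
  have hρ0 : ρ ≠ 0 := by omega
  have hcF : Nat.card (GaloisField 2 ρ) = 2 ^ ρ := GaloisField.card 2 ρ hρ0
  have hfin : Finite (GaloisField 2 ρ) := by
    apply Nat.finite_of_card_ne_zero
    rw [hcF]
    positivity
  have : Fintype (GaloisField 2 ρ) := Fintype.ofFinite _
  have hcard : Fintype.card (GaloisField 2 ρ) = 2 ^ ρ := by
    rw [← Nat.card_eq_fintype_card]
    exact hcF
  have hcB : Fintype.card (Fin ρ → Bool) = 2 ^ ρ := by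
    simp
  let e : (Fin ρ → Bool) ≃ GaloisField 2 ρ := Fintype.equivOfCardEq (hcB.trans hcard.symm)
  refine ⟨Fin 6 → GaloisField 2 ρ, inferInstance, fun ω => prg M w (GaloisField 2 ρ) (e ω),
    ?_, ?_⟩
  · rw [Nat.card_eq_fintype_card, Fintype.card_fun, hcard, Fintype.card_fin, ← pow_mul, mul_comm]
  · intro x
    refine ⟨fun hne => ?_, fun he ω => ?_⟩
    · have hq : quad M x - w ≠ 0 := sub_ne_zero.2 hne
      have hd : (quad M x - w).natDegree ≤ 2 * K := by
        refine (natDegree_sub_le _ _).trans (max_le (deg_quad M x) ?_)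
        rw [← hx0]
        exact deg_quad M x0
      have h1 := card_zero (GaloisField 2 ρ) hq hd
      have h2 : (univ.filter fun ω : Fin ρ → Bool =>
          ¬ (prg M w (GaloisField 2 ρ) (e ω)).Accepts x).card ≤ 2 * K := by
        refine le_trans ?_ h1
        apply card_le_card_of_injOn (fun ω => e ω)
        · intro ω hω
          have h3 := (mem_filter.1 (mem_coe.1 hω)).2
          rw [acc_iff, not_not] at h3
          rw [mem_coe, mem_filter]
          refine ⟨mem_univ _, ?_⟩
          rw [map_sub, h3, sub_self]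
        · intro a _ b _ hab
          exact e.injective hab
      have h3 := card_filter_add_card_filter_not (s := (univ : Finset (Fin ρ → Bool)))
        (fun ω => (prg M w (GaloisField 2 ρ) (e ω)).Accepts x)
      rw [card_univ, hcB] at h3
      show 2 ^ ρ ≤ 2 * (univ.filter fun ω : Fin ρ → Bool =>
          (prg M w (GaloisField 2 ρ) (e ω)).Accepts x).card
      omega
    · rw [acc_iff, not_not, he]

end Pool.Agent.L0h90.LT
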